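import Pool.Agent.H447.QR.Stm

/-!
# Project QR (helper447), task SH: a form with a rational root represents all nonzero doubles
-/

set_option autoImplicit false

open WeierstrassCurve

namespace Pool.Agent.H249.QR.SH

open Pool.Agent.H447.QR

/-- the identities for the value and the two covariants -/
theorem ident {A B C D E a b u v l : ℚ} (hB : B ≠ 0) (hA : A = 0)
    (hI : C ^ 2 - 3 * B * D = -48 * a)
    (hJ : 9 * B * C * D - 27 * E * B ^ 2 - 2 * C ^ 3 = -1728 * b)
    (hc : v ^ 2 = u ^ 3 + a * u + b) (hl : 2 * v * l = 3 * u ^ 2 + a) :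
    (8 * v / B) ^ 2 = (⟨A, B, C, D, E⟩ : Qf ℚ).v ((4 * u - C / 3) / B) 1 ∧
    48 * (8 * v / B) ^ 2 * (l ^ 2 - u - u) =
      (⟨A, B, C, D, E⟩ : Qf ℚ).h4 ((4 * u - C / 3) / B) 1 ∧
    64 * (8 * v / B) ^ 3 * (-(l * (l ^ 2 - u - u - u) + v)) =
      (⟨A, B, C, D, E⟩ : Qf ℚ).h6 ((4 * u - C / 3) / B) 1 := by
  have ha : a = 2 * v * l - 3 * u ^ 2 := by linarith
  subst ha
  have hb : b = v ^ 2 - u ^ 3 - (2 * v * l - 3 * u ^ 2) * u := by linarith
  subst hb
  have hD : D = (C ^ 2 + 48 * (2 * v * l - 3 * u ^ 2)) / (3 * B) := by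
    field_simp
    linarith
  subst hA
  have hE : E = (64 * (v ^ 2 - u ^ 3 - (2 * v * l - 3 * u ^ 2) * u) +
      C * (C ^ 2 + 48 * (2 * v * l - 3 * u ^ 2)) / 9 - 2 * C ^ 3 / 27) / B ^ 2 := by
    have h1 : 3 * B * D = C ^ 2 + 48 * (2 * v * l - 3 * u ^ 2) := by linarith
    rw [← h1]
    field_simp
    linarith
  subst hE
  subst hD
  refine ⟨?_, ?_, ?_⟩
  · simp only [Qf.v]
    field_simp
    ring
  · simp only [Qf.h4]
    field_simp
    ring
  · simp only [Qf.h6]
    field_simp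
    ring

/-- the case of the root `(1 : 0)` -/
theorem core {a b : ℚ} {g : Qf ℚ} (hd : 4 * a ^ 3 + 27 * b ^ 2 ≠ 0) (hInv : Inv a b g)
    (hA : g.A = 0) (Q : Pt a b) (hQ : Q + Q ≠ 0) : Rep a b g (Q + Q) := by
  obtain ⟨A, B, C, D, E⟩ := g
  obtain ⟨hI, hJ⟩ := hInv
  simp only [Qf.I] at hI
  simp only [Qf.J] at hJ
  simp only at hA
  subst hA
  have hI' : C ^ 2 - 3 * B * D = -48 * a := by linarith
  have hJ' : 9 * B * C * D - 27 * E * B ^ 2 - 2 * C ^ 3 = -1728 * b := by linarith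
  have hB : B ≠ 0 := by
    intro hB
    subst hB
    apply hd
    have h1 : C ^ 2 = -48 * a := by linarith
    have h2 : C ^ 3 = 864 * b := by linarith
    have h3 : (C ^ 3) ^ 2 = (C ^ 2) ^ 3 := by ring
    rw [h1, h2] at h3
    linarith
  rcases Q with _ | ⟨u, v, h⟩
  · exact absurd (add_zero (0 : Pt a b)) hQ
  · have hc : v ^ 2 = u ^ 3 + a * u + b := by
      have h1 := (Affine.equation_iff _ _).1 h.1
      simp only [zero_mul, add_zero] at h1
      linarith
    have hv : v ≠ 0 := by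
      rintro rfl
      apply hQ
      apply Affine.Point.add_self_of_Y_eq
      simp [Affine.negY]
    have hne : v ≠ (crv a b).toAffine.negY u v := by
      simp only [Affine.negY]
      intro h1
      apply hv
      linarith
    obtain ⟨l, hl⟩ : ∃ l : ℚ, (crv a b).toAffine.slope u u v v = l := ⟨_, rfl⟩
    have hl2 : 2 * v * l = 3 * u ^ 2 + a := by
      rw [← hl, Affine.slope_of_Y_ne rfl hne]
      simp only [Affine.negY]
      have h1 : v - (-v - 0 * u - 0) = 2 * v := by ring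
      rw [h1]
      field_simp
      ring
    obtain ⟨e1, e2, e3⟩ := ident (E := E) (D := D) hB rfl hI' hJ' hc hl2
    refine ⟨(4 * u - C / 3) / B, 1, 8 * v / B, _, _, Affine.nonsingular_add h h
      (fun hxy => hne hxy.right), ?_, e1, ?_, ?_, Affine.Point.add_self_of_Y_ne hne⟩
    · have : (8 : ℚ) * v ≠ 0 := mul_ne_zero (by norm_num) hv
      exact div_ne_zero this hB
    · rw [← e2, hl]
      simp only [Affine.addX]
      ring
    · rw [← e3, hl]
      simp only [Affine.addY, Affine.negY, Affine.negAddY, Affine.addX]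
      ring

theorem t_SH (c1 : S_COV1) (c2 : S_COV2) (tr : S_TR) : S_SH := by
  intro a b g hd hInv hroot Q hQ
  obtain ⟨x, z, hxz, h0⟩ := hroot
  obtain ⟨q, s, hdet⟩ : ∃ q s : ℚ, x * s - q * z = 1 := by
    by_cases hx : x = 0
    · have hz : z ≠ 0 := by
        rcases hxz with h | h
        · exact absurd hx h
        · exact h
      exact ⟨-1 / z, 0, by field_simp; ring⟩
    · exact ⟨0, 1 / x, by field_simp; ring⟩
  obtain ⟨-, cI, cJ, cc, -, -, -, c0⟩ := c1
  have hA : (g.comp x q z s).A = 0 := by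
    rw [← h0]
    simp only [Qf.comp, Qf.v]
  have hInv' : Inv a b (g.comp x q z s) := by
    refine ⟨?_, ?_⟩
    · rw [cI, hdet, one_pow, one_mul]
      exact hInv.1
    · rw [cJ, hdet, one_pow, one_mul]
      exact hInv.2
  have h1 := core hd hInv' hA Q hQ
  have h2 := tr a b (g.comp x q z s) s (-q) (-z) x 1 (Q + Q) (Or.inl (by linarith)) h1
  have h3 : ((g.comp x q z s).comp s (-q) (-z) x).smul (1 ^ 2) = g := by
    rw [cc, one_pow]
    have e1 : x * s + q * -z = 1 := by linarith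
    have e2 : x * -q + q * x = 0 := by ring
    have e3 : z * s + s * -z = 0 := by ring
    have e4 : z * -q + s * x = 1 := by linarith
    rw [e1, e2, e3, e4, (c0 g).1, (c0 g).2]
  rwa [h3] at h2

end Pool.Agent.H249.QR.SH
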